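import Pool.Agent.V5helper32.CM.Stm3

/-!
# Project CM (helper32): job INV (helper18)
-/

namespace Pool.Agent.V5helper18.CM

open Pool.Agent.V5helper32.CM MvPolynomial
open scoped TensorProduct

variable {V : Type} [AddCommGroup V] [Module ℂ V] {W : Subgroup (V ≃ₗ[ℂ] V)}

/-- `X` as a linear map. -/
noncomputable def XL (κ : V → Module.Dual ℂ V → W → ℂ) : Module.Dual ℂ V →ₗ[ℂ] Rca W κ where
  toFun := Rca.X κ
  map_add' ξ η := by
    unfold Rca.X
    rw [RingQuot.mkAlgHom_rel ℂ (Rel.x_add (κ := κ) ξ η), map_add]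
  map_smul' c ξ := by
    unfold Rca.X
    rw [RingQuot.mkAlgHom_rel ℂ (Rel.x_smul (κ := κ) c ξ), map_smul]
    rfl

/-- `Y` as a linear map. -/
noncomputable def YL (κ : V → Module.Dual ℂ V → W → ℂ) : V →ₗ[ℂ] Rca W κ where
  toFun := Rca.Y κ
  map_add' ξ η := by
    unfold Rca.Y
    rw [RingQuot.mkAlgHom_rel ℂ (Rel.y_add (κ := κ) ξ η), map_add]
  map_smul' c ξ := by
    unfold Rca.Y
    rw [RingQuot.mkAlgHom_rel ℂ (Rel.y_smul (κ := κ) c ξ), map_smul]
    rfl

lemma X_eq {n : ℕ} (b : Module.Basis (Fin n) ℂ V) (κ : V → Module.Dual ℂ V → W → ℂ)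
    (ξ : Module.Dual ℂ V) : Rca.X κ ξ = ∑ a, ξ (b a) • Rca.X κ (b.coord a) := by
  have h1 : ξ = ∑ a, ξ (b a) • b.coord a := by
    apply b.ext
    intro i
    rw [LinearMap.sum_apply, Finset.sum_eq_single i]
    · rw [LinearMap.smul_apply, Module.Basis.coord_apply, Module.Basis.repr_self,
        Finsupp.single_eq_same, smul_eq_mul, mul_one]
    · intro j _ hj
      rw [LinearMap.smul_apply, Module.Basis.coord_apply, Module.Basis.repr_self,
        Finsupp.single_eq_of_ne hj, smul_zero]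
    · intro h
      exact absurd (Finset.mem_univ _) h
  have h2 : Rca.X κ ξ = XL κ ξ := rfl
  rw [h2]
  nth_rewrite 1 [h1]
  rw [map_sum]
  refine Finset.sum_congr rfl fun a _ => ?_
  rw [map_smul]
  rfl

lemma Y_eq {n : ℕ} (b : Module.Basis (Fin n) ℂ V) (κ : V → Module.Dual ℂ V → W → ℂ)
    (v : V) : Rca.Y κ v = ∑ a, b.repr v a • Rca.Y κ (b a) := by
  have h2 : Rca.Y κ v = YL κ v := rfl
  rw [h2]
  nth_rewrite 1 [← b.sum_repr v]
  rw [map_sum]
  refine Finset.sum_congr rfl fun a _ => ?_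
  rw [map_smul]
  rfl

lemma tri_inj {n : ℕ} {W' : Type} [Group W'] [Fintype W'] {ρ : W' →* Gl n} {H : Type} [Ring H]
    [Algebra ℂ H] (T : Tri ρ H) : Function.Injective T.i := by
  classical
  intro f g hfg
  have key : ∀ f : MvPolynomial (Fin n) ℂ,
      ∑ w, mu T.i T.j T.u w
        ((Pi.single 1 (f ⊗ₜ[ℂ] (1 : MvPolynomial (Fin n) ℂ)) :
          W' → MvPolynomial (Fin n) ℂ ⊗[ℂ] MvPolynomial (Fin n) ℂ) w) = T.i f := by
    intro f
    rw [Finset.sum_eq_single 1]
    · rw [Pi.single_eq_same]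
      simp [mu]
    · intro w _ hw
      rw [Pi.single_eq_of_ne hw, map_zero]
    · intro h
      exact absurd (Finset.mem_univ _) h
  have h1 : (Pi.single 1 (f ⊗ₜ[ℂ] (1 : MvPolynomial (Fin n) ℂ)) :
      W' → MvPolynomial (Fin n) ℂ ⊗[ℂ] MvPolynomial (Fin n) ℂ) =
      (Pi.single 1 (g ⊗ₜ[ℂ] (1 : MvPolynomial (Fin n) ℂ)) :
      W' → MvPolynomial (Fin n) ℂ ⊗[ℂ] MvPolynomial (Fin n) ℂ) := by
    apply T.pbw.1
    change ∑ w, mu T.i T.j T.u w _ = ∑ w, mu T.i T.j T.u w _
    rw [key f, key g, hfg]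
  have h2 := congrFun h1 1
  rw [Pi.single_eq_same, Pi.single_eq_same] at h2
  have h3 := congrArg (TensorProduct.lift ((LinearMap.mul ℂ (MvPolynomial (Fin n) ℂ)).compl₁₂
    LinearMap.id ((Algebra.linearMap ℂ (MvPolynomial (Fin n) ℂ)) ∘ₗ
      (MvPolynomial.aeval (fun _ : Fin n => (0 : ℂ))).toLinearMap))) h2
  simpa using h3

theorem t_INV : S_INV := by
  intro V _ _ n b W _ κ ρ T hx hy hu
  have hX : ∀ ξ, Rca.X κ ξ = T.i (∑ a, ξ (b a) • X a) := by
    intro ξ
    rw [X_eq b κ ξ, map_sum]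
    refine Finset.sum_congr rfl fun a _ => ?_
    rw [map_smul, hx a]
  have hadj : ∀ f, T.i f ∈ Algebra.adjoin ℂ (Set.range (Rca.X κ)) := by
    intro f
    induction f using MvPolynomial.induction_on with
    | C c =>
      have : T.i (C c) = algebraMap ℂ _ c := T.i.commutes c
      rw [this]
      exact Subalgebra.algebraMap_mem _ c
    | add p q hp hq =>
      rw [map_add]
      exact Subalgebra.add_mem _ hp hq
    | mul_X p a hp =>
      rw [map_mul, hx a]
      exact Subalgebra.mul_mem _ hp (Algebra.subset_adjoin ⟨_, rfl⟩)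
  have hadj' : ∀ c ∈ Algebra.adjoin ℂ (Set.range (Rca.X κ)), ∃ f, c = T.i f := by
    intro c hc
    have h1 : Algebra.adjoin ℂ (Set.range (Rca.X κ)) ≤ T.i.range := by
      apply Algebra.adjoin_le
      rintro _ ⟨ξ, rfl⟩
      exact ⟨_, (hX ξ).symm⟩
    obtain ⟨f, hf⟩ := h1 hc
    exact ⟨f, hf.symm⟩
  have hspan : ∀ h, h ∈ Submodule.span ℂ {a : Rca W κ | ∃ ξ,
      ∃ b ∈ Algebra.adjoin ℂ (Set.range (Rca.X κ)), a = Rca.X κ ξ * b} ↔
      ∃ f : MvPolynomial (Fin n) ℂ, constantCoeff f = 0 ∧ h = T.i f := by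
    intro h
    constructor
    · intro hh
      have h1 : Submodule.span ℂ {a : Rca W κ | ∃ ξ,
          ∃ b ∈ Algebra.adjoin ℂ (Set.range (Rca.X κ)), a = Rca.X κ ξ * b} ≤
          (LinearMap.ker (MvPolynomial.aeval
            (fun _ : Fin n => (0 : ℂ))).toLinearMap).map T.i.toLinearMap := by
        rw [Submodule.span_le]
        rintro _ ⟨ξ, c, hc, rfl⟩
        obtain ⟨f, rfl⟩ := hadj' c hc
        refine ⟨(∑ a, ξ (b a) • X a) * f, ?_, ?_⟩
        · change MvPolynomial.aeval (fun _ : Fin n => (0 : ℂ)) ((∑ a, ξ (b a) • X a) * f) = 0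
          rw [map_mul, map_sum]
          simp
        · change T.i _ = _
          rw [map_mul, ← hX ξ]
      obtain ⟨f, hf, hf'⟩ := h1 hh
      refine ⟨f, ?_, hf'.symm⟩
      have h2 : MvPolynomial.aeval (fun _ : Fin n => (0 : ℂ)) f = 0 := hf
      have h3 := MvPolynomial.aeval_zero' (R := ℂ) (S₁ := ℂ) (σ := Fin n) f
      rw [h2] at h3
      exact h3.symm
    · rintro ⟨f, hf, rfl⟩
      have h1 : ∀ f : MvPolynomial (Fin n) ℂ, T.i (f - C (constantCoeff f)) ∈
          Submodule.span ℂ {a : Rca W κ | ∃ ξ,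
            ∃ b ∈ Algebra.adjoin ℂ (Set.range (Rca.X κ)), a = Rca.X κ ξ * b} := by
        intro f
        induction f using MvPolynomial.induction_on with
        | C c =>
          rw [constantCoeff_C, sub_self, map_zero]
          exact Submodule.zero_mem _
        | add p q hp hq =>
          have : p + q - C (constantCoeff (p + q)) =
              (p - C (constantCoeff p)) + (q - C (constantCoeff q)) := by
            rw [map_add, map_add]; ring
          rw [this, map_add]
          exact Submodule.add_mem _ hp hq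
        | mul_X p a hp =>
          have : p * X a - C (constantCoeff (p * X a)) = X a * p := by
            rw [map_mul, constantCoeff_X, mul_zero, map_zero, sub_zero, mul_comm]
          rw [this, map_mul, hx a]
          exact Submodule.subset_span ⟨_, _, hadj p, rfl⟩
      have h2 := h1 f
      rwa [hf, map_zero, sub_zero] at h2
  constructor
  · ext h
    constructor
    · rintro ⟨h1, h2⟩
      obtain ⟨f, hf, rfl⟩ := (hspan h).1 h1
      refine ⟨f, ?_, hf, rfl⟩
      intro w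
      apply tri_inj T
      have h3 := h2 w
      rw [← hu, T.ui w f] at h3
      have h4 := congrArg (fun z => z * T.u w⁻¹) h3
      simp only [mul_assoc, ← map_mul, mul_inv_cancel, map_one, mul_one] at h4
      exact h4
    · rintro ⟨f, hf, hf0, rfl⟩
      refine ⟨(hspan _).2 ⟨f, hf0, rfl⟩, ?_⟩
      intro w
      rw [← hu, T.ui w f, hf w]
  · apply le_antisymm
    · rw [Submodule.span_le]
      rintro _ ⟨v, rfl⟩
      rw [Y_eq b κ v]
      refine Submodule.sum_mem _ fun a _ => Submodule.smul_mem _ _ ?_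
      rw [← hy a]
      exact Submodule.subset_span ⟨a, rfl⟩
    · rw [Submodule.span_le]
      rintro _ ⟨a, rfl⟩
      change T.j (X a) ∈ _
      rw [hy a]
      exact Submodule.subset_span ⟨_, rfl⟩

end Pool.Agent.V5helper18.CM
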