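import Pool.Agent.V5helper32.CM.Stm3

/-!
# Project CM (helper32): job KAP (helper18)
-/

namespace Pool.Agent.V5helper18.CM

open Pool.Agent.V5helper32.CM

variable {V : Type} [AddCommGroup V] [Module ℂ V]

/-- An automorphism which fixes the kernel of `α` pointwise and stretches `β` by `d`. -/
lemma kap_formula (α : Module.Dual ℂ V) (β : V) (hβ : α β ≠ 0) (w : V ≃ₗ[ℂ] V)
    (hw : ∀ v ∈ LinearMap.ker α, w v = v) (d : ℂ) (hd : w β = d • β) (v : V) :
    w v = v + (α v / α β * (d - 1)) • β := by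
  have h1 : v - (α v / α β) • β ∈ LinearMap.ker α := by
    rw [LinearMap.mem_ker, map_sub, map_smul, smul_eq_mul, div_mul_cancel₀ _ hβ, sub_self]
  have h2 := hw _ h1
  rw [map_sub, map_smul, hd] at h2
  have h3 : w v = v - (α v / α β) • β + (α v / α β) • d • β := by
    rw [← h2]; abel
  rw [h3, smul_smul, mul_sub, mul_one, sub_smul]
  abel

lemma kap_inv_beta (β : V) (hβ : β ≠ 0) (w : V ≃ₗ[ℂ] V) (d : ℂ) (hd : w β = d • β) :
    d ≠ 0 ∧ (w⁻¹ : V ≃ₗ[ℂ] V) β = d⁻¹ • β := by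
  have h0 : d ≠ 0 := by
    intro h
    rw [h, zero_smul] at hd
    exact hβ ((LinearEquiv.map_eq_zero_iff w).1 hd)
  refine ⟨h0, ?_⟩
  apply w.injective
  have : w ((w⁻¹ : V ≃ₗ[ℂ] V) β) = β := w.apply_symm_apply β
  rw [this, map_smul, hd, smul_smul, inv_mul_cancel₀ h0, one_smul]

lemma kap_det [FiniteDimensional ℂ V] (α : Module.Dual ℂ V) (β : V) (hβ : α β ≠ 0)
    (w : V ≃ₗ[ℂ] V) (hw : ∀ v ∈ LinearMap.ker α, w v = v) (d : ℂ) (hd : w β = d • β) :
    LinearMap.det (w : V →ₗ[ℂ] V) = d := by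
  have h1 : (w : V →ₗ[ℂ] V) = LinearMap.transvection α (((d - 1) / α β) • β) := by
    ext v
    rw [LinearMap.transvection.apply, LinearEquiv.coe_coe, kap_formula α β hβ w hw d hd v,
      smul_smul]
    congr 2
    ring
  rw [h1, LinearMap.transvection.det, map_smul, smul_eq_mul, div_mul_cancel₀ _ hβ]
  ring

lemma kap_refl (α : Module.Dual ℂ V) (β : V) (hβ : α β ≠ 0) (w : V ≃ₗ[ℂ] V)
    (hw : ∀ v ∈ LinearMap.ker α, w v = v) (d : ℂ) (hd : w β = d • β) (h1 : w ≠ 1) :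
    IsRefl w ∧ LinearMap.ker ((w : V →ₗ[ℂ] V) - LinearMap.id) = LinearMap.ker α := by
  have hform := kap_formula α β hβ w hw d hd
  have hd1 : d - 1 ≠ 0 := by
    intro h
    apply h1
    ext v
    rw [hform v, h, mul_zero, zero_smul, add_zero]
    rfl
  have hβ0 : β ≠ 0 := by
    intro h
    rw [h, map_zero] at hβ
    exact hβ rfl
  have hsub : ∀ v, ((w : V →ₗ[ℂ] V) - (LinearMap.id : V →ₗ[ℂ] V)) v =
      (α v / α β * (d - 1)) • β := by
    intro v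
    rw [LinearMap.sub_apply, LinearMap.id_apply, LinearEquiv.coe_coe, hform v]
    abel
  constructor
  · have h2 : LinearMap.range ((w : V →ₗ[ℂ] V) - LinearMap.id) = Submodule.span ℂ {β} := by
      apply le_antisymm
      · rintro _ ⟨v, rfl⟩
        rw [hsub v]
        exact Submodule.smul_mem _ _ (Submodule.mem_span_singleton_self β)
      · rw [Submodule.span_singleton_le_iff_mem]
        refine ⟨(d - 1)⁻¹ • β, ?_⟩
        rw [hsub, map_smul, smul_eq_mul, mul_div_assoc, div_self hβ, mul_one,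
          inv_mul_cancel₀ hd1, one_smul]
    unfold Pool.Agent.V5helper32.CM.IsRefl
    rw [h2]
    exact finrank_span_singleton hβ0
  · ext v
    rw [LinearMap.mem_ker, LinearMap.mem_ker, hsub v, smul_eq_zero]
    constructor
    · rintro (h | h)
      · rcases mul_eq_zero.1 h with h | h
        · rcases div_eq_zero_iff.1 h with h | h
          · exact h
          · exact absurd h hβ
        · exact absurd h hd1
      · exact absurd h hβ0
    · intro h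
      left
      rw [h, zero_div, zero_mul]

/-- The pointwise stabiliser. -/
def stab (W : Subgroup (V ≃ₗ[ℂ] V)) (H : Submodule ℂ V) : Subgroup W where
  carrier := {w | ∀ v ∈ H, (w : V ≃ₗ[ℂ] V) v = v}
  mul_mem' := by
    intro a b ha hb v hv
    have h1 : ((a * b : W) : V ≃ₗ[ℂ] V) v = (a : V ≃ₗ[ℂ] V) ((b : V ≃ₗ[ℂ] V) v) := rfl
    rw [h1, hb v hv, ha v hv]
  one_mem' := by
    intro v _
    rfl
  inv_mem' := by
    intro a ha v hv
    have h1 := ha v hv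
    have h2 : ((a⁻¹ : W) : V ≃ₗ[ℂ] V) ((a : V ≃ₗ[ℂ] V) v) = v :=
      (a : V ≃ₗ[ℂ] V).symm_apply_apply v
    rw [h1] at h2
    exact h2

lemma eH_eq (W : Subgroup (V ≃ₗ[ℂ] V)) (H : Submodule ℂ V) :
    eH W H = Nat.card (stab W H) := rfl

lemma eH_pos (W : Subgroup (V ≃ₗ[ℂ] V)) [Finite W] (H : Submodule ℂ V) : 0 < eH W H := by
  rw [eH_eq]
  exact Nat.card_pos

lemma pow_eH (W : Subgroup (V ≃ₗ[ℂ] V)) (H : Submodule ℂ V) (w : W)
    (hw : ∀ v ∈ H, (w : V ≃ₗ[ℂ] V) v = v) : w ^ eH W H = 1 := by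
  have h : (⟨w, hw⟩ : stab W H) ^ Nat.card (stab W H) = 1 := pow_card_eq_one'
  have h2 := congrArg (fun g : stab W H => (g : W)) h
  exact h2

lemma pow_smul_beta (w : V ≃ₗ[ℂ] V) (β : V) (d : ℂ) (hd : w β = d • β) (n : ℕ) :
    (w ^ n : V ≃ₗ[ℂ] V) β = d ^ n • β := by
  induction n with
  | zero => rw [pow_zero, pow_zero, one_smul]; rfl
  | succ n ih =>
    have : (w ^ (n + 1) : V ≃ₗ[ℂ] V) β = (w ^ n : V ≃ₗ[ℂ] V) (w β) := by
      rw [pow_succ]; rfl
    rw [this, hd, map_smul, ih, smul_smul, pow_succ, mul_comm]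

lemma kap_one_sum (e : ℕ) (κ : ℕ → ℂ) (h : κ e = κ 0) :
    ∑ j ∈ Finset.range e, (κ j - κ (j + 1)) = 0 := by
  have := Finset.sum_range_sub κ e
  have h2 : ∑ j ∈ Finset.range e, (κ j - κ (j + 1)) =
      -∑ j ∈ Finset.range e, (κ (j + 1) - κ j) := by
    rw [← Finset.sum_neg_distrib]
    exact Finset.sum_congr rfl fun j _ => by ring
  rw [h2, this, h, sub_self, neg_zero]

lemma kap_sum (e : ℕ) (κ : ℕ → ℂ) (d : ℂ) (hd : d ≠ 0) (h : κ e = κ 0) (hde : d ^ e = 1) :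
    ∑ j ∈ Finset.range e, (κ j - κ (j + 1)) * d ^ j =
      -(∑ j ∈ Finset.range e, κ j * d ^ j) * (d⁻¹ - 1) := by
  have h1 : ∑ j ∈ Finset.range e, (κ (j + 1) * d ^ (j + 1) - κ j * d ^ j) = 0 := by
    rw [Finset.sum_range_sub fun j => κ j * d ^ j, h, hde, pow_zero, sub_self]
  rw [Finset.sum_sub_distrib, sub_eq_zero] at h1
  have h2 : ∑ j ∈ Finset.range e, κ (j + 1) * d ^ (j + 1) =
      d * ∑ j ∈ Finset.range e, κ (j + 1) * d ^ j := by
    rw [Finset.mul_sum]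
    exact Finset.sum_congr rfl fun j _ => by ring
  have h3 : ∑ j ∈ Finset.range e, κ (j + 1) * d ^ j = d⁻¹ * ∑ j ∈ Finset.range e, κ j * d ^ j := by
    rw [← h1, h2, ← mul_assoc, inv_mul_cancel₀ hd, one_mul]
  have h4 : ∑ j ∈ Finset.range e, (κ j - κ (j + 1)) * d ^ j =
      ∑ j ∈ Finset.range e, κ j * d ^ j - ∑ j ∈ Finset.range e, κ (j + 1) * d ^ j := by
    rw [← Finset.sum_sub_distrib]
    exact Finset.sum_congr rfl fun j _ => by ring
  rw [h4, h3]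
  ring

lemma conj_sub (g w : V ≃ₗ[ℂ] V) :
    (((g * w * g⁻¹ : V ≃ₗ[ℂ] V) : V →ₗ[ℂ] V) - LinearMap.id) =
      (g : V →ₗ[ℂ] V) ∘ₗ ((w : V →ₗ[ℂ] V) - LinearMap.id) ∘ₗ
        ((g⁻¹ : V ≃ₗ[ℂ] V) : V →ₗ[ℂ] V) := by
  ext v
  have h1 : g ((g⁻¹ : V ≃ₗ[ℂ] V) v) = v := g.apply_symm_apply v
  simp only [LinearMap.sub_apply, LinearMap.comp_apply, LinearEquiv.coe_coe, LinearMap.id_apply,
    map_sub, h1]
  rfl

lemma conj_range (g w : V ≃ₗ[ℂ] V) :
    LinearMap.range (((g * w * g⁻¹ : V ≃ₗ[ℂ] V) : V →ₗ[ℂ] V) - LinearMap.id) =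
      (LinearMap.range ((w : V →ₗ[ℂ] V) - LinearMap.id)).map (g : V →ₗ[ℂ] V) := by
  rw [conj_sub, LinearMap.range_comp, LinearMap.range_comp_of_range_eq_top]
  exact LinearEquiv.range _

lemma conj_refl (g w : V ≃ₗ[ℂ] V) : IsRefl (g * w * g⁻¹) ↔ IsRefl w := by
  unfold Pool.Agent.V5helper32.CM.IsRefl
  rw [conj_range, LinearEquiv.finrank_map_eq]

lemma conj_ker (g w : V ≃ₗ[ℂ] V) :
    LinearMap.ker (((g * w * g⁻¹ : V ≃ₗ[ℂ] V) : V →ₗ[ℂ] V) - LinearMap.id) =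
      (LinearMap.ker ((w : V →ₗ[ℂ] V) - LinearMap.id)).map (g : V →ₗ[ℂ] V) := by
  rw [conj_sub]
  ext v
  have h1 : g ((g⁻¹ : V ≃ₗ[ℂ] V) v) = v := g.apply_symm_apply v
  rw [Submodule.mem_map]
  constructor
  · intro h
    refine ⟨(g⁻¹ : V ≃ₗ[ℂ] V) v, ?_, h1⟩
    rw [LinearMap.mem_ker] at h ⊢
    exact (LinearEquiv.map_eq_zero_iff g).1 h
  · rintro ⟨u, hu, rfl⟩
    rw [LinearMap.mem_ker] at hu ⊢
    have h2 : (g⁻¹ : V ≃ₗ[ℂ] V) (g u) = u := g.symm_apply_apply u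
    simp only [LinearMap.comp_apply, LinearEquiv.coe_coe, h2, hu, map_zero]

lemma conj_det (g w : V ≃ₗ[ℂ] V) :
    LinearMap.det ((g * w * g⁻¹ : V ≃ₗ[ℂ] V) : V →ₗ[ℂ] V) =
      LinearMap.det (w : V →ₗ[ℂ] V) :=
  LinearMap.det_conj (w : V →ₗ[ℂ] V) g

lemma conj_eH (W : Subgroup (V ≃ₗ[ℂ] V)) (g : W) (H : Submodule ℂ V) :
    eH W (H.map ((g : V ≃ₗ[ℂ] V) : V →ₗ[ℂ] V)) = eH W H := by
  unfold eH
  refine Nat.card_congr (Equiv.subtypeEquiv (MulAut.conj g⁻¹).toEquiv ?_)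
  intro w
  have key : ∀ v, (((MulAut.conj g⁻¹).toEquiv w : W) : V ≃ₗ[ℂ] V) v =
      ((g : V ≃ₗ[ℂ] V)⁻¹ : V ≃ₗ[ℂ] V) ((w : V ≃ₗ[ℂ] V) ((g : V ≃ₗ[ℂ] V) v)) := by
    intro v
    have : ((MulAut.conj g⁻¹).toEquiv w : W) = g⁻¹ * w * g := by
      simp
    rw [this]
    rfl
  constructor
  · intro h v hv
    have h1 : (w : V ≃ₗ[ℂ] V) ((g : V ≃ₗ[ℂ] V) v) = (g : V ≃ₗ[ℂ] V) v :=
      h _ (Submodule.mem_map_of_mem hv)
    rw [key, h1]
    exact (g : V ≃ₗ[ℂ] V).symm_apply_apply v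
  · rintro h _ ⟨v, hv, rfl⟩
    have h1 := h v hv
    rw [key] at h1
    have h2 := congrArg (g : V ≃ₗ[ℂ] V) h1
    have h3 : (g : V ≃ₗ[ℂ] V) (((g : V ≃ₗ[ℂ] V)⁻¹ : V ≃ₗ[ℂ] V)
      ((w : V ≃ₗ[ℂ] V) ((g : V ≃ₗ[ℂ] V) v))) = (w : V ≃ₗ[ℂ] V) ((g : V ≃ₗ[ℂ] V) v) :=
      (g : V ≃ₗ[ℂ] V).apply_symm_apply _
    rw [h3] at h2
    exact h2

open Classical in
/-- The class function. -/
noncomputable def cf (W : Subgroup (V ≃ₗ[ℂ] V)) (k : Submodule ℂ V → ℕ → ℂ) (w : W) : ℂ :=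
  if IsRefl (w : V ≃ₗ[ℂ] V) then
    -∑ j ∈ Finset.range (eH W (LinearMap.ker (((w : V ≃ₗ[ℂ] V) : V →ₗ[ℂ] V) - LinearMap.id))),
      k (LinearMap.ker (((w : V ≃ₗ[ℂ] V) : V →ₗ[ℂ] V) - LinearMap.id)) j *
        LinearMap.det ((w : V ≃ₗ[ℂ] V) : V →ₗ[ℂ] V) ^ j
  else 0

theorem t_KAP : S_KAP := by
  classical
  intro V _ _ _ W hW k hk α β hr
  obtain ⟨hfin, -⟩ := hW
  refine ⟨cf W k, ?_, ?_, ?_⟩
  · intro g w
    unfold cf
    have e1 : ((g * w * g⁻¹ : W) : V ≃ₗ[ℂ] V) =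
        (g : V ≃ₗ[ℂ] V) * (w : V ≃ₗ[ℂ] V) * (g : V ≃ₗ[ℂ] V)⁻¹ := rfl
    rw [e1]
    by_cases hre : IsRefl (w : V ≃ₗ[ℂ] V)
    · rw [if_pos hre, if_pos ((conj_refl _ _).2 hre), conj_ker, conj_det, conj_eH]
      refine congrArg _ (Finset.sum_congr rfl fun j _ => ?_)
      rw [hk.1 g g.2 _ ⟨w, w.2, hre, rfl⟩ j]
    · rw [if_neg hre, if_neg (fun h => hre ((conj_refl _ _).1 h))]
  · intro w hw
    by_contra hre
    exact hw (if_neg hre)
  · intro v ξ w
    have hαβ : ∀ H ∈ hyps W, α H (β H) ≠ 0 := by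
      intro H hH h0
      obtain ⟨h1, h2, -⟩ := hr H hH
      apply h2
      have h3 : β H ∈ LinearMap.ker (α H) := h0
      rwa [h1] at h3
    have hterm : ∀ H ∈ hyps W, (∀ v ∈ H, (w : V ≃ₗ[ℂ] V) v = v) →
        ∑ j ∈ Finset.range (eH W H),
          (eH W H : ℂ) * (k H j - k H (j + 1)) * (α H v * ξ (β H) / α H (β H)) * epsH W H j w =
        (α H v * ξ (β H) / α H (β H)) * ∑ j ∈ Finset.range (eH W H),
          (k H j - k H (j + 1)) * LinearMap.det ((w : V ≃ₗ[ℂ] V) : V →ₗ[ℂ] V) ^ j := by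
      intro H hH hfix
      rw [Finset.mul_sum]
      refine Finset.sum_congr rfl fun j _ => ?_
      have he : (eH W H : ℂ) ≠ 0 := Nat.cast_ne_zero.2 (eH_pos W H).ne'
      unfold epsH
      rw [if_pos hfix]
      field_simp
    have hterm0 : ∀ H, ¬ (∀ v ∈ H, (w : V ≃ₗ[ℂ] V) v = v) →
        ∑ j ∈ Finset.range (eH W H),
          (eH W H : ℂ) * (k H j - k H (j + 1)) * (α H v * ξ (β H) / α H (β H)) * epsH W H j w =
        0 := by
      intro H hfix
      refine Finset.sum_eq_zero fun j _ => ?_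
      unfold epsH
      rw [if_neg hfix, mul_zero]
    have huniq : ∀ H ∈ hyps W, (∀ v ∈ H, (w : V ≃ₗ[ℂ] V) v = v) → (w : V ≃ₗ[ℂ] V) ≠ 1 →
        IsRefl (w : V ≃ₗ[ℂ] V) ∧
          LinearMap.ker (((w : V ≃ₗ[ℂ] V) : V →ₗ[ℂ] V) - LinearMap.id) = H := by
      intro H hH hfix h1
      obtain ⟨h2, h3, h4⟩ := hr H hH
      obtain ⟨d, hd⟩ := h4 w w.2 hfix
      rw [← h2] at hfix
      have := kap_refl (α H) (β H) (hαβ H hH) w hfix d hd h1
      rwa [h2] at this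
    by_cases hre : IsRefl (w : V ≃ₗ[ℂ] V)
    · have hH : LinearMap.ker (((w : V ≃ₗ[ℂ] V) : V →ₗ[ℂ] V) - LinearMap.id) ∈ hyps W :=
        ⟨w, w.2, hre, rfl⟩
      have hw1 : (w : V ≃ₗ[ℂ] V) ≠ 1 := by
        intro h1
        unfold Pool.Agent.V5helper32.CM.IsRefl at hre
        rw [h1] at hre
        have h2 : (((1 : V ≃ₗ[ℂ] V) : V →ₗ[ℂ] V) - LinearMap.id) = 0 := by
          ext x
          simp
        rw [h2, LinearMap.range_zero, finrank_bot] at hre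
        exact zero_ne_one hre
      have hfix : ∀ v ∈ LinearMap.ker (((w : V ≃ₗ[ℂ] V) : V →ₗ[ℂ] V) - LinearMap.id),
          (w : V ≃ₗ[ℂ] V) v = v := by
        intro u hu
        rw [LinearMap.mem_ker, LinearMap.sub_apply, sub_eq_zero] at hu
        exact hu
      have hc : cf W k w = -∑ j ∈ Finset.range
          (eH W (LinearMap.ker (((w : V ≃ₗ[ℂ] V) : V →ₗ[ℂ] V) - LinearMap.id))),
          k (LinearMap.ker (((w : V ≃ₗ[ℂ] V) : V →ₗ[ℂ] V) - LinearMap.id)) j *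
            LinearMap.det ((w : V ≃ₗ[ℂ] V) : V →ₗ[ℂ] V) ^ j := if_pos hre
      rw [hc]
      revert hH hfix
      generalize hHH : LinearMap.ker (((w : V ≃ₗ[ℂ] V) : V →ₗ[ℂ] V) - LinearMap.id) = H
      intro hH hfix
      unfold kap
      rw [finsum_eq_single _ H]
      · rw [finsum_eq_single _ hH (fun h h' => absurd rfl h'), hterm H hH hfix]
        obtain ⟨h2, h3, h4⟩ := hr H hH
        obtain ⟨d, hd⟩ := h4 w w.2 hfix
        have hfix' : ∀ v ∈ LinearMap.ker (α H), (w : V ≃ₗ[ℂ] V) v = v := by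
          rw [h2]; exact hfix
        have hβ0 : β H ≠ 0 := by
          intro h
          apply h3
          rw [h]
          exact H.zero_mem
        rw [kap_det (α H) (β H) (hαβ H hH) w hfix' d hd]
        obtain ⟨hd0, hd'⟩ := kap_inv_beta (β H) hβ0 w d hd
        have hfix'' : ∀ v ∈ LinearMap.ker (α H), ((w : V ≃ₗ[ℂ] V)⁻¹ : V ≃ₗ[ℂ] V) v = v := by
          intro u hu
          have := congrArg ((w : V ≃ₗ[ℂ] V)⁻¹ : V ≃ₗ[ℂ] V) (hfix' u hu)
          have h5 : ((w : V ≃ₗ[ℂ] V)⁻¹ : V ≃ₗ[ℂ] V) ((w : V ≃ₗ[ℂ] V) u) = u :=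
            (w : V ≃ₗ[ℂ] V).symm_apply_apply u
          rw [h5] at this
          exact this.symm
        have hde : d ^ eH W H = 1 := by
          have h6 := pow_eH W H w hfix
          have h7 := pow_smul_beta w (β H) d hd (eH W H)
          have h8 : ((w : V ≃ₗ[ℂ] V) ^ eH W H : V ≃ₗ[ℂ] V) = 1 :=
            congrArg (fun g : W => (g : V ≃ₗ[ℂ] V)) h6
          rw [h8] at h7
          have h9 : (1 - d ^ eH W H) • β H = 0 := by
            rw [sub_smul, one_smul, ← h7]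
            exact sub_self _
          rcases smul_eq_zero.1 h9 with h10 | h10
          · exact (sub_eq_zero.1 h10).symm
          · exact absurd h10 hβ0
        have hper : k H (eH W H) = k H 0 := by
          have := hk.2 H hH 0
          rwa [zero_add] at this
        rw [kap_sum (eH W H) (k H) d hd0 hper hde,
          kap_formula (α H) (β H) (hαβ H hH) _ hfix'' _ hd' v, map_add, map_smul, smul_eq_mul]
        ring
      · intro H' hne
        by_cases hH' : H' ∈ hyps W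
        · rw [finsum_eq_single _ hH' (fun h h' => absurd rfl h')]
          apply hterm0
          intro hfix'
          exact hne ((huniq H' hH' hfix' hw1).2.symm.trans hHH)
        · have : IsEmpty (H' ∈ hyps W) := ⟨hH'⟩
          exact finsum_of_isEmpty _
    · have hc : cf W k w = 0 := if_neg hre
      rw [hc, zero_mul]
      unfold kap
      apply finsum_mem_of_eqOn_zero
      intro H hH
      by_cases hfix : ∀ v ∈ H, (w : V ≃ₗ[ℂ] V) v = v
      · have hw1 : (w : V ≃ₗ[ℂ] V) = 1 := by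
          by_contra h1
          exact hre (huniq H hH hfix h1).1
        have h2 := hterm H hH hfix
        have hdet : LinearMap.det ((w : V ≃ₗ[ℂ] V) : V →ₗ[ℂ] V) = 1 := by
          rw [hw1]
          exact LinearMap.det_id
        have hper : k H (eH W H) = k H 0 := by
          have := hk.2 H hH 0
          rwa [zero_add] at this
        have h3 : ∑ j ∈ Finset.range (eH W H),
            (k H j - k H (j + 1)) * LinearMap.det ((w : V ≃ₗ[ℂ] V) : V →ₗ[ℂ] V) ^ j = 0 := by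
          rw [hdet]
          simp only [one_pow, mul_one]
          exact kap_one_sum _ (k H) hper
        rw [h3, mul_zero] at h2
        exact h2
      · exact hterm0 H hfix

end Pool.Agent.V5helper18.CM
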